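import Pool.Agent.TH652.Inf

/-!
# Vanishing above the middle for right-angled Coxeter groups of arbitrary (also infinite) rank

`G` is a graph on an arbitrary set `V`, `W G` its right-angled Coxeter group (not finitely generated if `V` is
infinite). `AMI n G`: the smallest family which
* contains the comparability graphs of finite graded posets of length `n` which are Gorenstein* over `F_2`
  (for example the barycentric subdivisions of all triangulated `(n-1)`-spheres),
* contains each graph all of whose finite full subgraphs are members (for example the barycentric subdivisions of
  all triangulations of open subsets of the `(n-1)`-sphere),
* is closed under full subgraphs, isomorphisms, subdivisions of edges, `n ↦ n + 1`, joins (the numbers `n` add up)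
  and gluing two members of number `n + 2` along a common full subgraph of number `n`,
* and contains, for `n = 2 m + 2`, each graph all of whose vertex links are members of number `2 m + 1`.

The Davis complex of `W G` is contractible but in general neither cocompact nor locally finite. The theorem says that
for `i > n / 2` each square summable `i`-cycle with finitely many types of cubes is the `ℓ²`-limit of boundaries of
square summable chains with the same types of cubes.
-/

set_option autoImplicit false

namespace Pool.Agent.Results.MP_4f4d9f_gt.InfiniteRank

open Pool.Agent.TH652.Above Pool.Agent.TH652.Inf

/-- For every (possibly infinite) graph in the class `AMI n` the reduced `ℓ²`-homology of the `W G`-cocompact full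
subcomplexes of the Davis complex vanishes in the degrees `i > n / 2`. -/
theorem result : ∀ (n : ℕ) (V : Type) [LinearOrder V] (G : SimpleGraph V), AMI n G →
    ∀ i : ℕ, n < 2 * i → RedVan G i := by
  intro n V _ G h i hi
  exact above_inf n G h i hi

end Pool.Agent.Results.MP_4f4d9f_gt.InfiniteRank
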